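import Pool.Agent.Lib.MP_04cb70_an.Lower
import Pool.Agent.Lib.MP_04cb70_an.Upper

open Set Metric Filter Topology

namespace Pool.Agent.Results.MP_04cb70_an.ContinuaConstant

open Pool.Agent.Lib.MP_04cb70_an

lemma best_le {a b : ℝ} (hab : a < b) {F : Set (ℝ × ℝ)} (hF : F ∈ continua a b) {m : ℕ}
    (hm : 0 < m) {k n : ℕ} (hn : m ^ 2 + 1 ≤ n) :
    bestApprox (splineCurves (k + 1) n) F ≤ (b - a) / (2 * m) := by
  refine le_of_forall_pos_le_add fun δ hδ ↦ ?_
  obtain ⟨γ, hγ, h⟩ := square_upper hab hF hm (k := k) hn hδ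
  refine le_trans (csInf_le ⟨0, ?_⟩ (mem_image_of_mem _ hγ)) h
  rintro _ ⟨γ, -, rfl⟩
  exact hausdorffDist_nonneg

lemma class_le {a b : ℝ} (hab : a < b) {m : ℕ} (hm : 0 < m) {k n : ℕ} (hn : m ^ 2 + 1 ≤ n) :
    classApprox (splineCurves (k + 1) n) (continua a b) ≤ (b - a) / (2 * m) := by
  obtain ⟨F, hF, -⟩ := comb_lower hab hm
  refine csSup_le ⟨_, mem_image_of_mem _ hF⟩ ?_
  rintro _ ⟨G, hG, rfl⟩
  exact best_le hab hG hm hn

lemma le_class {a b : ℝ} (hab : a < b) {m : ℕ} (hm : 0 < m) {k n : ℕ} (h2 : 2 ≤ n)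
    (hn : n + k + 2 < 4 * m ^ 2) :
    (b - a) / (4 * m) ≤ classApprox (splineCurves (k + 1) n) (continua a b) := by
  obtain ⟨F, hF, h⟩ := comb_lower hab hm
  refine le_csSup_of_le ⟨(b - a) / (2 * (1 : ℕ)), ?_⟩ (mem_image_of_mem _ hF) ?_
  · rintro _ ⟨G, hG, rfl⟩
    exact best_le hab hG one_pos (by omega)
  · obtain ⟨γ, hγ, -⟩ := square_upper hab hF one_pos (k := k) (n := n) (by omega) one_pos
    refine le_csInf ⟨_, mem_image_of_mem _ hγ⟩ ?_
    rintro _ ⟨γ, hγ, rfl⟩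
    exact h k n hn γ hγ

lemma tendsto_aux (C : ℝ) :
    Tendsto (fun n : ℕ ↦ √(n : ℝ) / (2 * (√(n : ℝ) + C))) atTop (𝓝 (1 / 2)) := by
  have h1 : Tendsto (fun n : ℕ ↦ √(n : ℝ)) atTop atTop :=
    Real.tendsto_sqrt_atTop.comp tendsto_natCast_atTop_atTop
  have h2 : Tendsto (fun n : ℕ ↦ 1 / (2 * (1 + C * (√(n : ℝ))⁻¹))) atTop
      (𝓝 (1 / (2 * (1 + C * 0)))) :=
    tendsto_const_nhds.div (((h1.inv_tendsto_atTop.const_mul C).const_add 1).const_mul 2)
      (by norm_num)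
  simp only [mul_zero, add_zero, mul_one] at h2
  refine h2.congr' ?_
  filter_upwards [h1.eventually_gt_atTop 0] with n hn
  field_simp

/-- `c_k' = 1 / 2` for every `k ≥ 1`, and the upper limit is a limit -/
theorem result (k : ℕ) (hk : 1 ≤ k) (a b : ℝ) (hab : a < b) :
    Tendsto (fun n : ℕ ↦ √(n : ℝ) * (classApprox (splineCurves k n) (continua a b) / (b - a)))
      atTop (𝓝 (1 / 2)) := by
  obtain ⟨k, rfl⟩ : ∃ j, k = j + 1 := ⟨k - 1, by omega⟩
  have hba : 0 < b - a := sub_pos.2 hab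
  refine tendsto_of_tendsto_of_tendsto_of_le_of_le' (tendsto_aux (k + 4)) (tendsto_aux (-1)) ?_ ?_
  · filter_upwards [eventually_ge_atTop 2] with n hn
    set s := Nat.sqrt (n + k + 2) with hs
    have e1 : n + k + 2 < (s + 1) ^ 2 := Nat.lt_succ_sqrt' _
    have e2 : s ^ 2 ≤ n + k + 2 := Nat.sqrt_le' _
    have e3 : s + 1 ≤ 2 * (s / 2 + 1) := by omega
    have h := le_class hab (m := s / 2 + 1) (by omega) (k := k) hn (by nlinarith)
    have e4 : (s : ℝ) ≤ √(n : ℝ) + (k + 2) := by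
      have a1 : (s : ℝ) ^ 2 ≤ n + k + 2 := by exact_mod_cast e2
      have a2 : √(n : ℝ) ^ 2 = n := Real.sq_sqrt (Nat.cast_nonneg _)
      have a3 : (0 : ℝ) ≤ k := Nat.cast_nonneg _
      have a4 : 0 ≤ √(n : ℝ) := Real.sqrt_nonneg _
      exact le_of_sq_le_sq (by nlinarith) (by positivity)
    have e5 : ((s / 2 + 1 : ℕ) : ℝ) * 2 ≤ s + 2 := by
      have : (s / 2 + 1) * 2 ≤ s + 2 := by omega
      exact_mod_cast this
    have e6 : (0 : ℝ) < ((s / 2 + 1 : ℕ) : ℝ) := by positivity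
    rw [div_eq_mul_inv]
    refine mul_le_mul_of_nonneg_left ?_ (Real.sqrt_nonneg _)
    rw [le_div_iff₀ hba]
    refine le_trans ?_ h
    rw [mul_comm, ← div_eq_mul_inv]
    exact div_le_div_of_nonneg_left hba.le (by positivity) (by linarith)
  · filter_upwards [eventually_ge_atTop 2] with n hn
    set s := Nat.sqrt (n - 1) with hs
    have e1 : n - 1 < (s + 1) ^ 2 := Nat.lt_succ_sqrt' _
    have e2 : s ^ 2 ≤ n - 1 := Nat.sqrt_le' _
    have e3 : 0 < s := Nat.sqrt_pos.2 (by omega)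
    have h := class_le hab e3 (k := k) (n := n) (by omega)
    have e4 : √(n : ℝ) ≤ s + 1 := by
      rw [Real.sqrt_le_left (by positivity)]
      have : n ≤ (s + 1) ^ 2 := by omega
      exact_mod_cast this
    have e5 : 1 < √(n : ℝ) := by
      rw [Real.lt_sqrt zero_le_one]
      have : 1 < n := by omega
      exact_mod_cast this
    rw [div_eq_mul_inv (√(n : ℝ))]
    refine mul_le_mul_of_nonneg_left ?_ (Real.sqrt_nonneg _)
    rw [div_le_iff₀ hba]
    refine h.trans ?_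
    rw [mul_comm _ (b - a), ← div_eq_mul_inv]
    exact div_le_div_of_nonneg_left hba.le (by linarith) (by linarith)

end Pool.Agent.Results.MP_04cb70_an.ContinuaConstant
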